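import Pool.Agent.Mg.Fbbd370.G4108a3

set_option autoImplicit false

open Set MeasureTheory Pool.Agent.MP_bbd370_an

namespace Pool.Agent.Results.MP_bbd370_an.GapBoundedRate

theorem result (μ : Measure ℝ)
    (hμ : μ = (volume.restrict (Ioi (0 : ℝ))).withDensity fun x => ENNReal.ofReal x) :
    ∃ (r a : ℝ → ℝ) (b : ℝ → ℝ → ℝ) (U V : ℝ → Lp ℂ 1 μ →L[ℂ] Lp ℂ 1 μ),
    IsData r a b ∧ ContinuousOn r (Ioi 0) ∧ ContinuousOn a (Ioi 0) ∧ (∃ C, ∀ x, 0 < x → a x ≤ C) ∧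
    (∀ y, 0 < y → ∫⁻ x in Ioo 0 y, ENNReal.ofReal (x * b x y) = ENNReal.ofReal y) ∧
    IsTransport μ r a (fun t f => U t f) ∧ IsC0Semigroup U ∧ IsC0Semigroup V ∧
    (∀ t, 0 ≤ t → ∀ f, IsNonneg μ f → IsNonneg μ (V t f)) ∧
    (∀ f g, GenGraph V f g ↔ ∃ h, GenGraph U f h ∧
      g =ᵐ[μ] fun x => h x + ∫ y in Ioi x, (a y : ℂ) * (b x y : ℂ) * f y) ∧
    HasSpectralGap V := by
  subst hμ
  exact main

end Pool.Agent.Results.MP_bbd370_an.GapBoundedRate
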